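import Mathlib
import Pool.Agent.Helper116_EM.PiE

set_option autoImplicit false

/-!
# `π + e`, `π - e` and the tails of a plane integral: a joint measure of algebraic independence

For a rational number `x > 0` let `T(x)` be the integral of `exp (-s² - t²)` over the points `(s, t)` of
the plane with `s² ≥ x` or `t² ≥ x`; the integral over the whole plane is `π`.

Let `u_0, …, u_m` be different ones of the numbers `π + e`, `π - e` and `T(x)` (`x > 0` rational), and
let `D` be given.  There are `κ` and `c > 0` such that for all nonzero polynomials `P` (in one variable)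
and `Q` (in `m` variables) with integer coefficients, of total degree at most `D` and with coefficients
of absolute value at most `H`
`max (|P(u_0)|, |Q(u_1, …, u_m)|) ≥ c H^(-κ)`.

In particular at every scale `H` at most one of the numbers `π + e`, `π - e` and `T(x)` has a very good
approximation by a rational number (or by an algebraic number of bounded degree) of height at most `H`,
and if one has, then the others are quantitatively algebraically independent at this scale.

Proof.  `T(x) = π - x (2 - E(x))²` with the value `E(x)` of an E-function.  A measure of linear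
independence in the theorem of Siegel and Shidlovskii gives a measure of algebraic independence for the
numbers `u_j - u_0`, which do not contain `π`, and `u_0` is eliminated by a resultant.
-/

namespace Pool.Agent.Results.MP_363d4d_nt.JointMeasureWithTails

open MeasureTheory

/-- the names of the numbers -/
inductive Name : Type
  | plus : Name
  | minus : Name
  | tail (x : ℚ) : Name

/-- `T(x)` -/
noncomputable def T (x : ℚ) : ℝ :=
  ∫ p in {p : ℝ × ℝ | (x : ℝ) ≤ p.1 ^ 2 ∨ (x : ℝ) ≤ p.2 ^ 2}, Real.exp (-(p.1 ^ 2 + p.2 ^ 2))

/-- the numbers `π + e`, `π - e` and `T(x)` -/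
noncomputable def number : Name → ℝ
  | Name.plus => Real.pi + Real.exp 1
  | Name.minus => Real.pi - Real.exp 1
  | Name.tail x => T x

/-- admissible names: `x > 0` in `T(x)` -/
def Admissible (z : Name) : Prop := ∀ x, z = Name.tail x → 0 < x

open Classical in
/-- the internal names -/
noncomputable def nm : Name → Pool.Agent.Helper116_EM.NP
  | Name.plus => Sum.inl true
  | Name.minus => Sum.inl false
  | Name.tail x => if h : 0 < x then Sum.inr ⟨x, h⟩ else Sum.inl true

theorem num_nm {z : Name} (hz : Admissible z) : Pool.Agent.Helper116_EM.numP (nm z) = number z := by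
  rcases z with _ | _ | x
  · rfl
  · rfl
  · have hx := hz x rfl
    simp only [nm, dif_pos hx]
    rfl

theorem nm_inj {z z' : Name} (hz : Admissible z) (hz' : Admissible z') (h : nm z = nm z') : z = z' := by
  rcases z with _ | _ | x <;> rcases z' with _ | _ | x'
  · rfl
  · simp [nm] at h
  · have hx' := hz' x' rfl
    simp [nm, hx'] at h
  · simp [nm] at h
  · rfl
  · have hx' := hz' x' rfl
    simp [nm, hx'] at h
  · have hx := hz x rfl
    simp [nm, hx] at h
  · have hx := hz x rfl
    simp [nm, hx] at h
  · have hx := hz x rfl
    have hx' := hz' x' rfl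
    simp only [nm, dif_pos hx, dif_pos hx', Sum.inr.injEq, Subtype.mk.injEq] at h
    rw [h]

theorem result (m D : ℕ) (a : Fin (m + 1) → Name) (ha : Function.Injective a) (hpos : ∀ j, Admissible (a j)) :
    ∃ (κ : ℕ) (c : ℝ), 0 < c ∧ ∀ (H : ℕ) (P : Polynomial ℤ) (Q : MvPolynomial (Fin m) ℤ),
      P ≠ 0 → P.natDegree ≤ D → (∀ i, |P.coeff i| ≤ (H : ℤ)) →
      Q ≠ 0 → Q.totalDegree ≤ D → (∀ s, |MvPolynomial.coeff s Q| ≤ (H : ℤ)) →
      c / (H : ℝ) ^ κ ≤ max |Polynomial.aeval (number (a 0)) P|
        |MvPolynomial.aeval (fun j : Fin m => number (a j.succ)) Q| := by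
  obtain ⟨κ, c, hc, h⟩ := Pool.Agent.Helper116_EM.pi_names (fun j => nm (a j))
    (fun i j hij => ha (nm_inj (hpos i) (hpos j) hij)) D
  refine ⟨κ, c, hc, fun H P Q hP hPD hPH hQ hQD hQH => ?_⟩
  have hH : 1 ≤ H := by
    by_contra h0
    have hH0 : H = 0 := by omega
    apply hP
    ext s
    have h1 := hPH s
    rw [hH0, Nat.cast_zero] at h1
    rw [Polynomial.coeff_zero]
    exact abs_eq_zero.1 (le_antisymm h1 (abs_nonneg _))
  have hH' : (1 : ℝ) ≤ H := by exact_mod_cast hH
  have h1 := h P Q hP hQ hPD hQD H hH' (fun s => by exact_mod_cast hPH s) (fun s => by exact_mod_cast hQH s)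
  simp only [num_nm (hpos _)] at h1
  rw [div_le_iff₀ (by positivity), mul_comm]
  exact h1

end Pool.Agent.Results.MP_363d4d_nt.JointMeasureWithTails
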